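import Pool.Agent.Helper6.MONO.Stmts

set_option autoImplicit false

/-! MP_c75db0_gt: monotonicity up to constants from a region. -/

noncomputable section
namespace Pool.Agent.Helper6.MONO

open Filter Topology

theorem grw_kk_symm (p q r : ℕ) (i j : Fin 3) : kk p q r i j = kk p q r j i := by
  fin_cases i <;> fin_cases j <;> simp [kk, mm]

theorem grw_mm_symm (p q r : ℕ) (i j : Fin 3) : mm p q r i j = mm p q r j i := by
  fin_cases i <;> fin_cases j <;> simp [mm]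

theorem grw_Kp (M : ℕ) (hM : 3 ≤ M) : 0 < Kp M ∧ Kp M < 2 := by
  have hM' : (3 : ℝ) ≤ M := by exact_mod_cast hM
  have hpi := Real.pi_pos
  have h1 : 0 < Real.pi / M := by positivity
  have h2 : Real.pi / M ≤ Real.pi / 3 := by
    apply div_le_div_of_nonneg_left hpi.le (by norm_num) hM'
  have h3 : 0 < Real.cos (Real.pi / M) := by
    apply Real.cos_pos_of_mem_Ioo
    constructor <;> linarith
  have h4 : Real.cos (Real.pi / M) < 1 := by
    rw [← Real.cos_zero]
    exact Real.cos_lt_cos_of_nonneg_of_le_pi le_rfl (by linarith) h1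
  unfold Kp
  constructor <;> linarith

theorem grw_kk (p q r : ℕ) (hp : 3 ≤ p) (hq : 3 ≤ q) (hr : 3 ≤ r) (i j : Fin 3) (h : i ≠ j) :
    0 < kk p q r i j ∧ kk p q r i j < 2 := by
  fin_cases i <;> fin_cases j <;> simp [kk, mm] at h ⊢ <;> first
    | exact grw_Kp p hp
    | exact grw_Kp q hq
    | exact grw_Kp r hr

theorem grw_Sb {k : ℝ} (h0 : 0 < k) (h2 : k < 2) : 0 < SbP k := by
  unfold SbP
  have : 0 < 2 - k := by linarith
  positivity

theorem grw_g {k hd he : ℝ} (h0 : 0 < k) (h1 : 0 < hd) (h2 : 0 < he) : 0 < gP k hd he := by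
  unfold gP
  positivity

theorem grw_nx (p q r : ℕ) (ev : Bool) (c d e c' d' e' : Fin 3) (hD : Dist c d e)
    (h : nx ev c d e = (c', d', e')) : Dist c' d' e' ∧
    kk p q r d' e' = nk ev (kk p q r d e) (kk p q r c d) (kk p q r c e) ∧
    kk p q r c' d' = nhd ev (kk p q r d e) (kk p q r c d) (kk p q r c e) ∧
    kk p q r c' e' = nhe ev (kk p q r d e) (kk p q r c d) (kk p q r c e) := by
  obtain ⟨h1, h2, h3⟩ := hD
  cases ev
  · simp only [nx, Bool.false_eq_true, if_false, Prod.mk.injEq] at h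
    obtain ⟨rfl, rfl, rfl⟩ := h
    refine ⟨⟨h2, h3, h1⟩, ?_, ?_, ?_⟩
    · simp only [nk, Bool.false_eq_true, if_false]
      exact grw_kk_symm _ _ _ _ _
    · rfl
    · simp only [nhe, Bool.false_eq_true, if_false]
      exact grw_kk_symm _ _ _ _ _
  · simp only [nx, if_true, Prod.mk.injEq] at h
    obtain ⟨rfl, rfl, rfl⟩ := h
    refine ⟨⟨h2.symm, h1.symm, h3.symm⟩, ?_, ?_, ?_⟩
    · simp only [nk, if_true]
      exact grw_kk_symm _ _ _ _ _
    · simp only [nhd]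
      exact grw_kk_symm _ _ _ _ _
    · simp only [nhe, if_true]
      exact grw_kk_symm _ _ _ _ _

theorem grw_rsg (ε : Bool) {f : ℝ → ℝ} {s : ℝ} (h : ContinuousAt f s) :
    ContinuousAt (fun t => rsg ε (f t)) s := by
  cases ε
  · exact h.neg
  · exact h

theorem grw_cont (s k hd he R : ℝ) (ε ev : Bool) (Z : ℝ → RV) (hs : 0 ≤ s) (hk : 0 < k)
    (hhd : 0 < hd) (hhe : 0 < he) (hW : 0 < R * R + SbP k)
    (ha : ContinuousAt (fun t => (Z t).a) s) (hb : ContinuousAt (fun t => (Z t).b) s)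
    (hbe : ContinuousAt (fun t => (Z t).be) s) (hyr : ContinuousAt (fun t => (Z t).yr) s) :
    ContinuousAt (fun t => fac t ε ev (Z t) k hd he R) s := by
  have hid : ContinuousAt (fun t : ℝ => t) s := continuousAt_id
  have h1s : ContinuousAt (fun t : ℝ => 1 + t) s := continuousAt_const.add hid
  have hXr : ContinuousAt (fun t => vXr t ε (Z t)) s := grw_rsg ε (ha.sub (hid.mul hb))
  have hXi : ContinuousAt (fun t => vXi (Z t)) s := ha.add hb
  have hYr : ContinuousAt (fun t => vYr t (Z t)) s := h1s.mul hyr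
  have hYi : ContinuousAt (fun t => vYi t ε (Z t)) s := h1s.mul (grw_rsg ε hbe)
  have hDr : ContinuousAt (fun t => vDr t ε ev (Z t) k hd he R) s :=
    ((continuousAt_const.add (continuousAt_const.mul hXr)).add
      (continuousAt_const.mul hYr)).add continuousAt_const
  have hDi : ContinuousAt (fun t => vDi t ε ev (Z t) k hd he R) s :=
    ((continuousAt_const.mul hXi).add (continuousAt_const.mul hYi)).add continuousAt_const
  have hn : ContinuousAt (fun t => vn t ε ev (Z t) k hd he R) s :=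
    (hDr.mul hDr).add (hid.mul (hDi.mul hDi))
  have hg := grw_g hk hhd hhe
  have h1 : 0 < 1 + s := by linarith
  refine ContinuousAt.div (continuousAt_const.mul hn)
    ((continuousAt_const.mul h1s).mul continuousAt_const) ?_
  positivity

/-- from the logarithm to the function -/
theorem grw_log {F : ℝ → ℝ} {s D : ℝ} (hc : ContinuousAt F s) (h0 : 0 < F s)
    (h : HasDerivAt (fun t => Real.log (F t)) D s) : HasDerivAt F (D * F s) s := by
  have hpos : ∀ᶠ t in 𝓝 s, 0 < F t := hc.eventually (lt_mem_nhds h0)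
  have h1 := h.exp
  rw [Real.exp_log h0, mul_comm] at h1
  refine h1.congr_of_eventuallyEq ?_
  filter_upwards [hpos] with t ht
  exact (Real.exp_log ht).symm

theorem grw_flag {M : ℕ} {v w ε : Bool} {m : ℕ} (h : allowed M v ε m) (hw : w = true → v = true) :
    allowed M w ε m ∧ (vnext M w ε m = true → vnext M v ε m = true) := by
  cases v <;> cases w
  · exact ⟨h, id⟩
  · exact absurd (hw rfl) (by simp)
  · unfold allowed at h ⊢
    unfold vnext
    simp only [Bool.true_eq_false, false_and, and_false, false_or, true_and,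
      Bool.false_eq_true, or_false] at h ⊢
    obtain ⟨h1, h2, h3⟩ := h
    subst h1
    refine ⟨Or.inr ⟨rfl, h2, by omega⟩, ?_⟩
    simp only [Bool.false_eq_true, false_and, false_or, true_and, decide_eq_true_eq]
    intro h4
    omega
  · exact ⟨h, id⟩

/-- the inductive claim -/
def GrwC (p q r : ℕ) (s0 s1 : ℝ) {J : Type} (At : J → Fin 3 × Fin 3 × Fin 3 → Prop)
    (fl : J → Bool) (pt : J → ℝ) (Bx : J → RSt → Prop) (B : ℝ) (bs : List (Bool × ℕ)) : Prop :=
  ∀ (c d e : Fin 3) (v : Bool) (Z : ℝ → RV), Dist c d e → okPath p q r v (c, d, e) bs →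
  (∀ t, s0 ≤ t → t ≤ s1 → NR t (kk p q r d e) (kk p q r c d) (kk p q r c e) (Z t)) →
  (∀ s, s0 ≤ s → s ≤ s1 → ∃ (z : RSt) (yd : ℝ) (j : J), At j (c, d, e) ∧
    (fl j = true → v = true) ∧ Bx j z ∧ Mov Z s z yd) →
  ∀ s, s0 ≤ s → s ≤ s1 → ∀ (z : RSt) (yd : ℝ) (j : J), At j (c, d, e) →
    (fl j = true → v = true) → Bx j z → Mov Z s z yd →
    nP p q r s (c, d, e) (Z s) bs ∧ 0 < fP p q r s (c, d, e) (Z s) bs ∧
    (|(zP p q r s (c, d, e) (Z s) bs).a| ≤ B ∧ |(zP p q r s (c, d, e) (Z s) bs).b| ≤ B ∧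
      |(zP p q r s (c, d, e) (Z s) bs).be| ≤ B ∧ |(zP p q r s (c, d, e) (Z s) bs).yr| ≤ B) ∧
    ∃ D, HasDerivAt (fun t => fP p q r t (c, d, e) (Z t) bs)
      (D * fP p q r s (c, d, e) (Z s) bs) s ∧ D * (1 + s) ≤ pt j + B

/-- one step at one parameter -/
theorem grw_step (hE1 : ST_EQ true) (hE0 : ST_EQ false) (hDER : ST_DER) (hYD : ST_YD)
    (p q r : ℕ) (hp : 3 ≤ p) (hq : 3 ≤ q) (hr : 3 ≤ r) (s0 s1 : ℝ) (h0 : 0 ≤ s0) (h01 : s0 < s1)
    {J : Type} {At : J → Fin 3 × Fin 3 × Fin 3 → Prop} {fl : J → Bool} {pt : J → ℝ}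
    {Bx : J → RSt → Prop}
    (hstep : ∀ (j : J) (c d e : Fin 3), Dist c d e → At j (c, d, e) → ∀ (ε : Bool) (m : ℕ),
      allowed (mm p q r d e) (fl j) ε m → ∀ (s : ℝ) (z : RSt), s0 ≤ s → s ≤ s1 → Bx j z →
      (r_stp s ε (ev2 m) z (kk p q r d e) (kk p q r c d) (kk p q r c e) (Rb (mm p q r d e) m)).ck ∧
      ∃ j' : J, At j' (nx (ev2 m) c d e) ∧
        (fl j' = true → vnext (mm p q r d e) (fl j) ε m = true) ∧
        Bx j' (r_stp s ε (ev2 m) z (kk p q r d e) (kk p q r c d) (kk p q r c e)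
          (Rb (mm p q r d e) m)).st ∧
        (r_stp s ε (ev2 m) z (kk p q r d e) (kk p q r c d) (kk p q r c e)
          (Rb (mm p q r d e) m)).L + (pt j' - pt j) < 0)
    {c d e : Fin 3} {v : Bool} {Z : ℝ → RV} (hD : Dist c d e) {ε : Bool} {m : ℕ}
    (hal : allowed (mm p q r d e) v ε m)
    (hNR : ∀ t, s0 ≤ t → t ≤ s1 → NR t (kk p q r d e) (kk p q r c d) (kk p q r c e) (Z t))
    {s : ℝ} (hs0 : s0 ≤ s) (hs1 : s ≤ s1) {z : RSt} {yd : ℝ} {j : J} (hA : At j (c, d, e))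
    (hf : fl j = true → v = true) (hB : Bx j z) (hM : Mov Z s z yd) :
    stepN p q r s c d e ε m (Z s) ≠ 0 ∧ 0 < stepF p q r s c d e ε m (Z s) ∧
    ∃ (z' : RSt) (yd' : ℝ) (j' : J) (D : ℝ), At j' (nx (ev2 m) c d e) ∧
      (fl j' = true → vnext (mm p q r d e) v ε m = true) ∧ Bx j' z' ∧
      Mov (fun t => stepV p q r t c d e ε m (Z t)) s z' yd' ∧
      HasDerivAt (fun t => stepF p q r t c d e ε m (Z t))
        (D * stepF p q r s c d e ε m (Z s)) s ∧ D * (1 + s) + (pt j' - pt j) < 0 := by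
  have hs : 0 ≤ s := h0.trans hs0
  have h1s : 0 < 1 + s := by linarith
  obtain ⟨hk, hk2⟩ := grw_kk p q r hp hq hr d e hD.2.1
  obtain ⟨hhd, hhd2⟩ := grw_kk p q r hp hq hr c d hD.1
  obtain ⟨hhe, hhe2⟩ := grw_kk p q r hp hq hr c e hD.2.2.symm
  obtain ⟨hal', hvn⟩ := grw_flag hal hf
  obtain ⟨hck, j', hA', hf', hB', hL'⟩ := hstep j c d e hD hA ε m hal' s z hs0 hs1 hB
  have hE : ST_EQ (ev2 m) := by
    cases ev2 m
    exacts [hE0, hE1]
  have hNRs := hNR s hs0 hs1
  rw [hM.val] at hNRs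
  obtain ⟨hDr, hn, hden, hval, had, hbd, hbed, hL⟩ :=
    hE s (kk p q r d e) (kk p q r c d) (kk p q r c e) (Rb (mm p q r d e) m) ε z hs hk hhd hhe
      hNRs hck
  have hyd := hYD s0 s1 s (kk p q r d e) (kk p q r c d) (kk p q r c e) Z z yd h01 hs0 hs1 h0 hM
    hNR (ne_of_gt hden)
  obtain ⟨ha', hb', hbe', hyr', hfac⟩ := hDER s (kk p q r d e) (kk p q r c d) (kk p q r c e)
    (Rb (mm p q r d e) m) ε (ev2 m) Z z yd hs hk hhd hhe hM hn
  have hW : 0 < Rb (mm p q r d e) m * Rb (mm p q r d e) m + SbP (kk p q r d e) := by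
    have := grw_Sb hk hk2
    nlinarith [mul_self_nonneg (Rb (mm p q r d e) m)]
  obtain ⟨hF, hlog⟩ := hfac (mul_pos hW hW)
  have hcont := grw_cont s (kk p q r d e) (kk p q r c d) (kk p q r c e) (Rb (mm p q r d e) m) ε
    (ev2 m) Z hs hk hhd hhe hW hM.da.continuousAt hM.db.continuousAt hM.dbe.continuousAt
    hM.dyr.continuousAt
  have hFs : 0 < fac s ε (ev2 m) (Z s) (kk p q r d e) (kk p q r c d) (kk p q r c e)
      (Rb (mm p q r d e) m) := by
    rw [hM.val]
    exact hF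
  have hFD := grw_log hcont hFs hlog
  refine ⟨?_, hFs, (r_stp s ε (ev2 m) z (kk p q r d e) (kk p q r c d) (kk p q r c e)
    (Rb (mm p q r d e) m)).st, dyr s ε (ev2 m) z (kk p q r d e) (kk p q r c d) (kk p q r c e)
    (Rb (mm p q r d e) m) yd, j', _, hA', fun h => hvn (hf' h), hB', ?_, hFD, ?_⟩
  · unfold stepN
    rw [hM.val]
    exact ne_of_gt hn
  · constructor
    · rw [hval, ← hM.val]
      rfl
    · rw [had, ← hyd]
      exact ha'
    · rw [hbd, ← hyd]
      exact hb'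
    · rw [hbed, ← hyd]
      exact hbe'
    · exact hyr'
  · rw [div_mul_cancel₀ _ (ne_of_gt h1s), hyd, ← hL]
    exact hL'

theorem grw_ind (hNRI : ST_NRI) (hE1 : ST_EQ true) (hE0 : ST_EQ false) (hDER : ST_DER)
    (hYD : ST_YD)
    (p q r : ℕ) (hp : 3 ≤ p) (hq : 3 ≤ q) (hr : 3 ≤ r) (s0 s1 : ℝ) (h0 : 0 ≤ s0) (h01 : s0 < s1)
    {J : Type} {At : J → Fin 3 × Fin 3 × Fin 3 → Prop} {fl : J → Bool} {pt : J → ℝ}
    {Bx : J → RSt → Prop} {B : ℝ} (hb1 : ∀ j, |pt j| ≤ B)
    (hb2 : ∀ j z, Bx j z → |z.a| ≤ B ∧ |z.b| ≤ B ∧ |z.be| ≤ B ∧ |z.yr| ≤ B)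
    (hstep : ∀ (j : J) (c d e : Fin 3), Dist c d e → At j (c, d, e) → ∀ (ε : Bool) (m : ℕ),
      allowed (mm p q r d e) (fl j) ε m → ∀ (s : ℝ) (z : RSt), s0 ≤ s → s ≤ s1 → Bx j z →
      (r_stp s ε (ev2 m) z (kk p q r d e) (kk p q r c d) (kk p q r c e) (Rb (mm p q r d e) m)).ck ∧
      ∃ j' : J, At j' (nx (ev2 m) c d e) ∧
        (fl j' = true → vnext (mm p q r d e) (fl j) ε m = true) ∧
        Bx j' (r_stp s ε (ev2 m) z (kk p q r d e) (kk p q r c d) (kk p q r c e)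
          (Rb (mm p q r d e) m)).st ∧
        (r_stp s ε (ev2 m) z (kk p q r d e) (kk p q r c d) (kk p q r c e)
          (Rb (mm p q r d e) m)).L + (pt j' - pt j) < 0)
    (bs : List (Bool × ℕ)) : GrwC p q r s0 s1 At fl pt Bx B bs := by
  induction bs with
  | nil =>
    intro c d e v Z hD hok hNR hex s hs0 hs1 z yd j hA hf hB hM
    refine ⟨trivial, one_pos, ?_, 0, ?_, ?_⟩
    · have := hb2 j z hB
      simp only [zP]
      rw [hM.val]
      exact this
    · simp only [fP, zero_mul]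
      exact hasDerivAt_const _ _
    · have := (abs_le.1 (hb1 j)).1
      linarith
  | cons b bs ih =>
    obtain ⟨ε, m⟩ := b
    intro c d e v Z hD hok hNR hex s hs0 hs1 z yd j hA hf hB hM
    obtain ⟨hal, hok'⟩ := hok
    rcases hnx : nx (ev2 m) c d e with ⟨c', d', e'⟩
    obtain ⟨hD', hk', hhd', hhe'⟩ := grw_nx p q r (ev2 m) c d e c' d' e' hD hnx
    have key : ∀ t, s0 ≤ t → t ≤ s1 → ∀ (z : RSt) (yd : ℝ) (j : J), At j (c, d, e) →
        (fl j = true → v = true) → Bx j z → Mov Z t z yd → _ :=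
      fun t ht0 ht1 z yd j hA hf hB hM =>
        grw_step hE1 hE0 hDER hYD p q r hp hq hr s0 s1 h0 h01 hstep hD hal hNR ht0 ht1 hA hf hB hM
    have hNR' : ∀ t, s0 ≤ t → t ≤ s1 → NR t (kk p q r d' e') (kk p q r c' d') (kk p q r c' e')
        (stepV p q r t c d e ε m (Z t)) := by
      intro t ht0 ht1
      obtain ⟨z1, yd1, j1, hA1, hf1, hB1, hM1⟩ := hex t ht0 ht1
      have h1 := (key t ht0 ht1 z1 yd1 j1 hA1 hf1 hB1 hM1).1
      rw [hk', hhd', hhe']
      exact hNRI t (kk p q r d e) (kk p q r c d) (kk p q r c e) (Rb (mm p q r d e) m) ε (ev2 m)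
        (Z t) (h0.trans ht0) (grw_kk p q r hp hq hr d e hD.2.1).1
        (grw_kk p q r hp hq hr c d hD.1).1 (grw_kk p q r hp hq hr c e hD.2.2.symm).1
        (hNR t ht0 ht1) h1
    have hex' : ∀ t, s0 ≤ t → t ≤ s1 → ∃ (z : RSt) (yd : ℝ) (j : J), At j (c', d', e') ∧
        (fl j = true → vnext (mm p q r d e) v ε m = true) ∧ Bx j z ∧
        Mov (fun t => stepV p q r t c d e ε m (Z t)) t z yd := by
      intro t ht0 ht1
      obtain ⟨z1, yd1, j1, hA1, hf1, hB1, hM1⟩ := hex t ht0 ht1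
      obtain ⟨-, -, z2, yd2, j2, D2, hA2, hf2, hB2, hM2, -, -⟩ :=
        key t ht0 ht1 z1 yd1 j1 hA1 hf1 hB1 hM1
      rw [hnx] at hA2
      exact ⟨z2, yd2, j2, hA2, hf2, hB2, hM2⟩
    obtain ⟨hN, hF, z2, yd2, j2, D2, hA2, hf2, hB2, hM2, hFD, hFL⟩ :=
      key s hs0 hs1 z yd j hA hf hB hM
    rw [hnx] at hA2 hok'
    obtain ⟨i1, i2, i3, D3, i4, i5⟩ := ih c' d' e' (vnext (mm p q r d e) v ε m)
      (fun t => stepV p q r t c d e ε m (Z t)) hD' hok' hNR' hex' s hs0 hs1 z2 yd2 j2 hA2 hf2 hB2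
      hM2
    refine ⟨?_, ?_, ?_, D2 + D3, ?_, ?_⟩
    · simp only [nP, hnx]
      exact ⟨hN, i1⟩
    · simp only [fP, hnx]
      exact mul_pos hF i2
    · simp only [zP, hnx]
      exact i3
    · simp only [fP, hnx]
      have h3 := hFD.mul i4
      have h4 : D2 * stepF p q r s c d e ε m (Z s) *
            fP p q r s (c', d', e') (stepV p q r s c d e ε m (Z s)) bs +
          stepF p q r s c d e ε m (Z s) *
            (D3 * fP p q r s (c', d', e') (stepV p q r s c d e ε m (Z s)) bs) =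
          (D2 + D3) * (stepF p q r s c d e ε m (Z s) *
            fP p q r s (c', d', e') (stepV p q r s c d e ε m (Z s)) bs) := by ring
      rw [← h4]
      exact h3
    · rw [add_mul]
      linarith

theorem st_GRW : ST_GRW := by
  intro hNRI hE1 hE0 hDER hYD hY0 p q r hp hq hr s0 s1 h0 h01 h12 hR
  obtain ⟨J, At, fl, pt, Bx, B, hb1, hb2, hst, hstep⟩ := hR
  have hB0 : 0 ≤ B := by
    obtain ⟨j, -⟩ := hst 0 1 2 ⟨by decide, by decide, by decide⟩ (3 / 5) (Or.inl rfl)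
    exact (abs_nonneg _).trans (hb1 j)
  refine ⟨Real.exp (2 * B * (s1 - s0)) + B + 1, by positivity, ?_⟩
  intro c d e hD a0 ha0 bs hok
  obtain ⟨j, hA, hfl, hj⟩ := hst c d e hD a0 ha0
  obtain ⟨hk, hk2⟩ := grw_kk p q r hp hq hr d e hD.2.1
  obtain ⟨hhd, hhd2⟩ := grw_kk p q r hp hq hr c d hD.1
  obtain ⟨hhe, hhe2⟩ := grw_kk p q r hp hq hr c e hD.2.2.symm
  have hY : ∀ s, s0 ≤ s → s ≤ s1 → NR s (kk p q r d e) (kk p q r c d) (kk p q r c e)
      (zst p q r s (c, d, e) a0) ∧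
      ∃ yd : ℝ, HasDerivAt (fun t => y0 t (kk p q r d e) (kk p q r c d) (kk p q r c e) a0) yd s :=
    fun s hs0 hs1 => hY0 s (kk p q r d e) (kk p q r c d) (kk p q r c e) a0 (h0.trans hs0) hk hk2.le
      hhd hhd2.le hhe (hj s hs0 hs1).1
  have hMov : ∀ s, s0 ≤ s → s ≤ s1 → ∃ yd : ℝ, Mov (fun t => zst p q r t (c, d, e) a0) s
      ⟨a0, 0, 0, y0 s (kk p q r d e) (kk p q r c d) (kk p q r c e) a0, 0, 0, 0⟩ yd := by
    intro s hs0 hs1
    obtain ⟨-, yd, hyd⟩ := hY s hs0 hs1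
    have h1s : (0 : ℝ) < 1 + s := by linarith
    refine ⟨yd * (1 + s), rfl, ?_, ?_, ?_, ?_⟩
    · rw [zero_div]
      exact hasDerivAt_const _ _
    · rw [zero_div]
      exact hasDerivAt_const _ _
    · rw [zero_div]
      exact hasDerivAt_const _ _
    · rw [mul_div_cancel_right₀ _ (ne_of_gt h1s)]
      exact hyd
  have hind := grw_ind hNRI hE1 hE0 hDER hYD p q r hp hq hr s0 s1 h0 h01 hb1 hb2 hstep bs c d e
    false (fun t => zst p q r t (c, d, e) a0) hD hok (fun t ht0 ht1 => (hY t ht0 ht1).1)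
    (fun t ht0 ht1 => by
      obtain ⟨yd, hyd⟩ := hMov t ht0 ht1
      exact ⟨_, yd, j, hA, fun h => absurd (hfl.symm.trans h) (by simp), (hj t ht0 ht1).2, hyd⟩)
  have hmain : ∀ s, s0 ≤ s → s ≤ s1 →
      nP p q r s (c, d, e) (zst p q r s (c, d, e) a0) bs ∧
      0 < fP p q r s (c, d, e) (zst p q r s (c, d, e) a0) bs ∧
      (|(zP p q r s (c, d, e) (zst p q r s (c, d, e) a0) bs).a| ≤ B ∧
        |(zP p q r s (c, d, e) (zst p q r s (c, d, e) a0) bs).b| ≤ B ∧
        |(zP p q r s (c, d, e) (zst p q r s (c, d, e) a0) bs).be| ≤ B ∧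
        |(zP p q r s (c, d, e) (zst p q r s (c, d, e) a0) bs).yr| ≤ B) ∧
      ∃ D, HasDerivAt (fun t => fP p q r t (c, d, e) (zst p q r t (c, d, e) a0) bs)
        (D * fP p q r s (c, d, e) (zst p q r s (c, d, e) a0) bs) s ∧ D ≤ 2 * B := by
    intro s hs0 hs1
    obtain ⟨yd, hyd⟩ := hMov s hs0 hs1
    obtain ⟨i1, i2, i3, D, i4, i5⟩ := hind s hs0 hs1 _ yd j hA
      (fun h => absurd (hfl.symm.trans h) (by simp)) (hj s hs0 hs1).2 hyd
    refine ⟨i1, i2, i3, D, i4, ?_⟩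
    have h5 := (abs_le.1 (hb1 j)).2
    have h6 : 0 ≤ s := h0.trans hs0
    by_cases hD0 : D ≤ 0
    · linarith
    · push Not at hD0
      nlinarith
  have hanti : AntitoneOn (fun t => fP p q r t (c, d, e) (zst p q r t (c, d, e) a0) bs *
      Real.exp (-(2 * B * t))) (Set.Icc s0 s1) := by
    have hder : ∀ t ∈ Set.Icc s0 s1, ∃ D' : ℝ, D' ≤ 0 ∧ HasDerivAt
        (fun t => fP p q r t (c, d, e) (zst p q r t (c, d, e) a0) bs *
          Real.exp (-(2 * B * t))) D' t := by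
      intro t ht
      obtain ⟨-, i2, -, D, i4, i5⟩ := hmain t ht.1 ht.2
      have h7 : HasDerivAt (fun t : ℝ => Real.exp (-(2 * B * t)))
          (Real.exp (-(2 * B * t)) * -(2 * B * 1)) t :=
        (((hasDerivAt_id t).const_mul (2 * B)).neg).exp
      refine ⟨_, ?_, i4.mul h7⟩
      have h8 := Real.exp_pos (-(2 * B * t))
      have h9 : D * fP p q r t (c, d, e) (zst p q r t (c, d, e) a0) bs *
            Real.exp (-(2 * B * t)) +
          fP p q r t (c, d, e) (zst p q r t (c, d, e) a0) bs *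
            (Real.exp (-(2 * B * t)) * -(2 * B * 1)) =
          (D - 2 * B) * (fP p q r t (c, d, e) (zst p q r t (c, d, e) a0) bs *
            Real.exp (-(2 * B * t))) := by ring
      rw [h9]
      exact mul_nonpos_of_nonpos_of_nonneg (by linarith) (mul_pos i2 h8).le
    apply antitoneOn_of_deriv_nonpos (convex_Icc _ _)
    · intro t ht
      obtain ⟨D', -, h⟩ := hder t ht
      exact h.continuousAt.continuousWithinAt
    · intro t ht
      obtain ⟨D', -, h⟩ := hder t (interior_subset ht)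
      exact h.differentiableAt.differentiableWithinAt
    · intro t ht
      obtain ⟨D', h', h⟩ := hder t (interior_subset ht)
      rw [h.deriv]
      exact h'
  intro s hs0 hs1
  obtain ⟨i1, i2, ⟨b1, b2, b3, b4⟩, -⟩ := hmain s hs0 hs1
  have hexp := Real.exp_pos (2 * B * (s1 - s0))
  have hyr := (hb2 j _ (hj s hs0 hs1).2).2.2.2
  refine ⟨(hY s hs0 hs1).1, i1, i2.le, ?_, by linarith, by linarith, by linarith, by linarith, ?_⟩
  · change |y0 s (kk p q r d e) (kk p q r c d) (kk p q r c e) a0| ≤ _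
    have : |y0 s (kk p q r d e) (kk p q r c d) (kk p q r c e) a0| ≤ B := hyr
    linarith
  · intro s' hss' hs1'
    have h10 := hanti ⟨hs0, hs1⟩ ⟨hs0.trans hss', hs1'⟩ hss'
    simp only at h10
    have h11 : fP p q r s' (c, d, e) (zst p q r s' (c, d, e) a0) bs ≤
        Real.exp (2 * B * (s' - s)) * fP p q r s (c, d, e) (zst p q r s (c, d, e) a0) bs := by
      have h12 : Real.exp (2 * B * (s' - s)) =
          Real.exp (-(2 * B * s)) * Real.exp (2 * B * s') := by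
        rw [← Real.exp_add]
        congr 1
        ring
      have h13 := mul_le_mul_of_nonneg_right h10 (Real.exp_pos (2 * B * s')).le
      rw [mul_assoc, ← Real.exp_add, neg_add_cancel, Real.exp_zero, mul_one] at h13
      rw [h12]
      linarith
    refine h11.trans ?_
    apply mul_le_mul_of_nonneg_right _ i2.le
    have h14 : Real.exp (2 * B * (s' - s)) ≤ Real.exp (2 * B * (s1 - s0)) := by
      apply Real.exp_le_exp.2
      apply mul_le_mul_of_nonneg_left _ (by positivity)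
      linarith
    linarith

end Pool.Agent.Helper6.MONO
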